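import Pool.Agent.H19.VAS.Obj
import Pool.Agent.H41.GSD.HtB

/-!
# The coefficients of the shape

`ktCf : KtCfStmt`: the coefficients of the height of the total sheet over the line side are
`≤ 2 ^ (b + C z)`. Only the agreement of the two sides on the natural box is used; it grows by a
power of the size of the box.
-/

set_option autoImplicit false

namespace Pool.VAS.KC12

open Finset MvPolynomial
open Pool.Agent.H49.Ent Pool.Agent.H32.Dense Pool.STK Pool.STAT Pool.MIC Pool.MicA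
open Pool.MIC.Frm Pool.MIC7
open Pool.BFL (Pl Pb)
open Pool.GSD (vtP fpt uco eval_PiS fpt_zero eval_vtP scv sd_line vtP_vars vtP_deg)

/-- **Two systems which agree on the natural box of the first one**: the agreement on the boxes of
size `B` of the second one. -/
theorem grow_agree (n K : ℕ) : ∃ (C : ℝ) (E : ℕ), 1 ≤ C ∧ ∀ (g : ℕ → ℕ) (Ψ Φ : ℕ → PN) (B : ℝ),
    1 ≤ B → TriN Ψ → TriN Φ → (∀ i ≤ n, (Ψ i).totalDegree ≤ K) →
    (∀ i ≤ n, (Φ i).totalDegree ≤ K) → Ψ 0 = Φ 0 →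
    (∀ l, 1 ≤ l → l ≤ n → ∀ b : ℕ → ℝ, (∀ i < l, |nat g Ψ b i| ≤ 1) →
      |eval b (Ψ l) - eval b (Φ l)| ≤ 1 / 2 ^ g l) →
    ∀ l ≤ n, ∀ b : ℕ → ℝ, (∀ i < l, |nat g Φ b i| ≤ B) →
      (∀ i < l, |nat g Ψ b i| ≤ C * B ^ E) ∧
        |eval b (Ψ l) - eval b (Φ l)| ≤ C * B ^ E / 2 ^ g l := by
  have main : ∀ m ≤ n, ∃ (C : ℝ) (E : ℕ), 1 ≤ C ∧ ∀ (g : ℕ → ℕ) (Ψ Φ : ℕ → PN) (B : ℝ),
      1 ≤ B → TriN Ψ → TriN Φ → (∀ i ≤ n, (Ψ i).totalDegree ≤ K) →
      (∀ i ≤ n, (Φ i).totalDegree ≤ K) → Ψ 0 = Φ 0 →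
      (∀ l, 1 ≤ l → l ≤ n → ∀ b : ℕ → ℝ, (∀ i < l, |nat g Ψ b i| ≤ 1) →
        |eval b (Ψ l) - eval b (Φ l)| ≤ 1 / 2 ^ g l) →
      ∀ l ≤ m, ∀ b : ℕ → ℝ, (∀ i < l, |nat g Φ b i| ≤ B) →
        (∀ i < l, |nat g Ψ b i| ≤ C * B ^ E) ∧
          |eval b (Ψ l) - eval b (Φ l)| ≤ C * B ^ E / 2 ^ g l := by
    intro m
    induction m with
    | zero =>
      intro _
      refine ⟨1, 0, le_rfl, ?_⟩
      intro g Ψ Φ B hB hΨ hΦ _ _ h0 _ l hl b _
      obtain rfl : l = 0 := by omega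
      refine ⟨fun i hi => absurd hi (Nat.not_lt_zero _), ?_⟩
      rw [h0, sub_self, abs_zero]
      positivity
    | succ m ih =>
      intro hm
      obtain ⟨C, E, hC, h⟩ := ih (by omega)
      obtain ⟨C', D, hC', h'⟩ := grow_fr (m + 1) K
      have h1 : 1 ≤ C + 1 := by linarith
      have h2 : 1 ≤ (C + 1) ^ D := one_le_pow₀ h1
      refine ⟨C' * (C + 1) ^ (D + 1), (E + 1) * (D + 1), ?_, ?_⟩
      · rw [pow_succ]
        nlinarith [mul_le_mul hC' h2 zero_le_one (by linarith : (0 : ℝ) ≤ C')]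
      intro g Ψ Φ B hB hΨ hΦ dΨ dΦ h0 hag l hl b hb
      have hB0 : (0 : ℝ) ≤ B := by linarith
      have p1 : B ^ E ≤ B ^ (E + 1) := pow_le_pow_right₀ hB (Nat.le_succ _)
      have p2 : B ≤ B ^ (E + 1) := by
        calc B = B ^ 1 := (pow_one _).symm
          _ ≤ _ := pow_le_pow_right₀ hB (by omega)
      have p3 : 1 ≤ B ^ (E + 1) := one_le_pow₀ hB
      set S : ℝ := (C + 1) * B ^ (E + 1) with hS
      have q1 : C * B ^ E + B ≤ S := by
        rw [hS]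
        nlinarith
      have q2 : 1 ≤ S := by
        rw [hS]
        nlinarith
      have q3 : C * B ^ E ≤ S := by linarith
      have q4 : S ≤ C' * (C + 1) ^ (D + 1) * B ^ ((E + 1) * (D + 1)) := by
        have e : C' * (C + 1) ^ (D + 1) * B ^ ((E + 1) * (D + 1)) = C' * S ^ D * S := by
          rw [hS, mul_pow, ← pow_mul, pow_succ, Nat.mul_succ, pow_add]
          ring
        rw [e]
        have : 1 ≤ C' * S ^ D := by
          have := one_le_pow₀ (n := D) q2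
          nlinarith
        nlinarith
      have q5 : C' * S ^ D ≤ C' * (C + 1) ^ (D + 1) * B ^ ((E + 1) * (D + 1)) := by
        have e : C' * (C + 1) ^ (D + 1) * B ^ ((E + 1) * (D + 1)) = C' * S ^ D * S := by
          rw [hS, mul_pow, ← pow_mul, pow_succ, Nat.mul_succ, pow_add]
          ring
        rw [e]
        have : 0 ≤ C' * S ^ D := by positivity
        nlinarith
      rcases Nat.lt_or_ge m l with hl' | hl'
      · obtain rfl : l = m + 1 := by omega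
        obtain ⟨a1, a2⟩ := h g Ψ Φ B hB hΨ hΦ dΨ dΦ h0 hag m le_rfl b fun i hi =>
          hb i (by omega)
        have b1 : ∀ i < m + 1, |nat g Ψ b i| ≤ S := by
          intro i hi
          rcases Nat.lt_or_ge i m with hi' | hi'
          · exact (a1 i hi').trans q3
          · obtain rfl : i = m := by omega
            have e1 : nat g Ψ b i = nat g Φ b i -
                2 ^ g i * (eval b (Ψ i) - eval b (Φ i)) := by
              unfold nat
              ring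
            rw [e1]
            have e2 : |(2 : ℝ) ^ g i * (eval b (Ψ i) - eval b (Φ i))| ≤ C * B ^ E := by
              rw [abs_mul, abs_of_pos (by positivity)]
              calc (2 : ℝ) ^ g i * _ ≤ 2 ^ g i * (C * B ^ E / 2 ^ g i) :=
                    mul_le_mul_of_nonneg_left a2 (by positivity)
                _ = C * B ^ E := by field_simp
            have e3 := abs_sub (nat g Φ b i) (2 ^ g i * (eval b (Ψ i) - eval b (Φ i)))
            have e4 := hb i hi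
            linarith
        refine ⟨fun i hi => (b1 i hi).trans q4, ?_⟩
        have b2 := h' g Ψ (Ψ (m + 1) - Φ (m + 1)) (1 / 2 ^ g (m + 1)) S hΨ
          (fun i hi => dΨ i (by omega)) q2
          (AdxRow.vars_sub_le (hΨ (m + 1)) (hΦ (m + 1)))
          ((totalDegree_sub _ _).trans (max_le (dΨ _ hm) (dΦ _ hm))) (fun b hb => by
            rw [map_sub]
            exact hag (m + 1) (by omega) hm b hb) b b1
        rw [map_sub] at b2
        refine b2.trans ?_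
        rw [mul_one_div]
        exact div_le_div_of_nonneg_right q5 (by positivity)
      · obtain ⟨a1, a2⟩ := h g Ψ Φ B hB hΨ hΦ dΨ dΦ h0 hag l hl' b hb
        exact ⟨fun i hi => (a1 i hi).trans (q3.trans q4), a2.trans
          (div_le_div_of_nonneg_right (q3.trans q4) (by positivity))⟩
  exact main n le_rfl

section

variable {D : NDat2} {n K J a₀ w₀ z M : ℕ} {lam gam : ℕ → ℝ} {κ C₁ : ℝ} {q : D.Ω → ℝ}

theorem kTr_deg (hO : D.Ok2 n K J a₀ w₀ z M lam gam κ C₁ q) {K' i j : ℕ} {F : Pl (n - 1)}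
    (hF : F.totalDegree ≤ K') (ω : D.Ω) : (kTr D n z i j F ω).totalDegree ≤ dT n K K' := by
  unfold kTr
  refine (deg_scl _ _ _).trans ((totalDegree_mul _ _).trans ?_)
  rw [totalDegree_C, zero_add]
  refine (Pool.MIC.Frm.deg_sl _ _).trans ?_
  unfold dT
  refine Pool.MIC.Frm.deg_fr (m := n) (Pool.MicA.tri_atT (hO.P_tri i j _) _) (fun k _ => ?_)
    (AdxRow.vars_sub_le (Pool.GSD.vtP_vars (hO.G_tri i j _) F) (hO.P_tri i j _ n))
    ((totalDegree_sub _ _).trans (max_le (Pool.GSD.vtP_deg (fun l => hO.G_deg i j _ l) hF)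
      ((hO.P_deg i j _ n).trans (Nat.le_add_right _ _))))
  unfold atT
  by_cases hk : k = 0
  · subst hk
    rw [Function.update_self, totalDegree_C]
    exact Nat.zero_le _
  · rw [Function.update_of_ne hk]
    exact hO.P_deg i j _ k

/-- The natural coordinates of the point with the scaled coordinates `v`. -/
theorem nat_fpt {i j : ℕ} {ω : D.Ω} (hP : TriN (D.Φ i j ω)) (v : Fin (n - 1) → ℝ) {l : ℕ}
    (h1 : 1 ≤ l) : nat (D.g i j) (D.Φ i j ω) (fpt D n z i j (D.Φ i j) ω v) l = uco n z v l := by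
  have e : fpt D n z i j (D.Φ i j) ω v l = eval (fpt D n z i j (D.Φ i j) ω v) (D.Φ i j ω l) +
      uco n z v l / 2 ^ D.g i j l := by
    conv_lhs => unfold fpt
    rw [pt_eq (Pool.MicA.tri_atT hP _)]
    unfold atT
    rw [Function.update_of_ne (by omega)]
    rfl
  unfold nat
  rw [e, add_sub_cancel_left]
  field_simp

theorem uco_le {v : Fin (n - 1) → ℝ} (hv : ∀ i, |v i| ≤ 1) (l : ℕ) :
    |uco n z v l| ≤ 6 * 2 ^ z := by
  have h2 : (0 : ℝ) < 2 ^ z := by positivity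
  unfold uco ex1
  split_ifs with h
  · have h3 := abs_le.1 (hv ⟨l - 1, h.2⟩)
    rw [abs_le]
    constructor <;> nlinarith [h3.1, h3.2]
  · rw [abs_zero]
    positivity

end

end Pool.VAS.KC12

namespace Pool.VAS

open Finset MvPolynomial KC12
open Pool.Agent.H49.Ent Pool.Agent.H32.Dense Pool.STK Pool.STAT Pool.MIC Pool.MicA
open Pool.MIC.Frm Pool.MIC7
open Pool.BFL (Pl Pb)
open Pool.GSD (vtP fpt uco eval_PiS fpt_zero eval_vtP scv sd_line vtP_vars vtP_deg)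

/-- **The coefficients of the shape.** -/
theorem ktCf : KtCfStmt := by
  classical
  intro n K K' hn
  obtain ⟨C, E, hC, hag⟩ := grow_agree n K
  obtain ⟨Cc, hCc, hcb⟩ := Pool.Agent.H36.KBX.coef_bound (n - 1) (dT n K K')
  obtain ⟨N, hN⟩ : ∃ N : ℝ, N = ((Pool.Agent.H36.KBX.bx (n - 1) K').card : ℝ) := ⟨_, rfl⟩
  have hN0 : 0 ≤ N := by
    rw [hN]
    positivity
  obtain ⟨P, hP⟩ : ∃ P : ℕ, P = (n - 1) * K' + 1 := ⟨_, rfl⟩
  obtain ⟨A, hA⟩ : ∃ A : ℝ, A = (Cc + 1) * (1 + N) * (2 * C * 6 ^ E) ^ P := ⟨_, rfl⟩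
  have h6 : (1 : ℝ) ≤ 6 ^ E := one_le_pow₀ (by norm_num)
  have hC2 : 1 ≤ 2 * C * 6 ^ E := by nlinarith
  have hA1 : 1 ≤ A := by
    rw [hA]
    have h1 := one_le_pow₀ (n := P) hC2
    have h2 : 1 ≤ (Cc + 1) * (1 + N) := by nlinarith
    nlinarith
  refine ⟨Real.logb 2 A + E * P, add_nonneg (Real.logb_nonneg one_lt_two hA1)
    (by positivity), ?_⟩
  intro D J a₀ w₀ z M i j lam gam κ C₁ b q ω F hz hi hj hO hω hb hF hcf α
  have hz1 : (1 : ℝ) ≤ z := by exact_mod_cast hz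
  have tP : TriN (D.Φ i j ω) := hO.P_tri _ _ _
  have tG : TriN (D.Ψ i j ω) := hO.G_tri _ _ _
  obtain ⟨t, ht⟩ : ∃ t : ℝ, t = D.X ω 0 := ⟨_, rfl⟩
  have h2z : (1 : ℝ) ≤ 2 ^ z := one_le_pow₀ (by norm_num)
  have hB : (1 : ℝ) ≤ 6 * 2 ^ z := by linarith
  have hS := sd_line hO hi hj hω
  have key := hag (D.g i j) (fz t (D.Ψ i j ω)) (fz t (D.Φ i j ω)) (6 * 2 ^ z) hB (tri_fz tG t)
    (tri_fz tP t) (fun l _ => deg_fz (hO.G_deg i j _ l) t) (fun l _ => deg_fz (hO.P_deg i j _ l) t)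
    (by rw [fz_zero, fz_zero]) (fun l h1 h2 b hb => by
      rw [eval_fz _ _ _ h1, eval_fz _ _ _ h1]
      refine hS.agr l h1 h2 _ (by rw [Function.update_self, ht]) fun r h3 h4 => ?_
      have h5 := hb r h4
      rwa [nat_fz _ _ _ _ h3] at h5) n le_rfl
  obtain ⟨ρ, hρ⟩ : ∃ ρ : ℝ, ρ = 2 * (C * (6 * 2 ^ z) ^ E) := ⟨_, rfl⟩
  have hBE : (1 : ℝ) ≤ (6 * 2 ^ z) ^ E := one_le_pow₀ hB
  have hCB : 1 ≤ C * (6 * 2 ^ z) ^ E := by nlinarith
  have hρ1 : 1 ≤ ρ := by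
    rw [hρ]
    linarith
  have h2b : 1 ≤ (2 : ℝ) ^ b := Real.one_le_rpow (by norm_num) hb
  -- values on the cube
  have hval : ∀ v : Fin (n - 1) → ℝ, (∀ i, |v i| ≤ 1) →
      |eval v (kTr D n z i j F ω)| ≤ (1 + N) * (2 : ℝ) ^ b * ρ ^ P := by
    intro v hv
    obtain ⟨x, hx⟩ : ∃ x : ℕ → ℝ, x = fpt D n z i j (D.Φ i j) ω v := ⟨_, rfl⟩
    have hx0 : x 0 = t := by
      rw [hx, ht]
      exact fpt_zero tP
    obtain ⟨k1, k2⟩ := key x (fun l hl => by
      rcases Nat.eq_zero_or_pos l with h0 | h0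
      · subst h0
        rw [nat_fz_zero, hx0, sub_self, mul_zero, abs_zero]
        linarith
      · rw [nat_fz' _ _ hx0 h0, hx, nat_fpt tP v h0]
        exact uco_le hv l)
    rw [eval_fz' _ hx0 hn, eval_fz' _ hx0 hn] at k2
    have e1 : eval v (kTr D n z i j F ω) = 2 ^ D.g i j n *
        (eval x (vtP n z (D.g i j) (D.Ψ i j ω) F) - eval x (D.Φ i j ω n)) := by
      rw [hx]
      exact eval_PiS D n z i j (D.Φ i j) (fun _ => vtP n z (D.g i j) (D.Ψ i j ω) F) ω v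
    have e2 : eval v (kTr D n z i j F ω) = 2 ^ D.g i j n *
        (eval x (D.Ψ i j ω n) - eval x (D.Φ i j ω n)) +
          eval (scv n z (D.g i j) (D.Ψ i j ω) x) F := by
      rw [e1, eval_vtP]
      field_simp
      ring
    have e3 : |(2 : ℝ) ^ D.g i j n * (eval x (D.Ψ i j ω n) - eval x (D.Φ i j ω n))| ≤
        C * (6 * 2 ^ z) ^ E := by
      rw [abs_mul, abs_of_pos (by positivity)]
      calc (2 : ℝ) ^ D.g i j n * _ ≤ 2 ^ D.g i j n * (C * (6 * 2 ^ z) ^ E / 2 ^ D.g i j n) :=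
            mul_le_mul_of_nonneg_left k2 (by positivity)
        _ = C * (6 * 2 ^ z) ^ E := by field_simp
    have e4 : ∀ l : Fin (n - 1), |scv n z (D.g i j) (D.Ψ i j ω) x l| ≤ ρ := by
      intro l
      have h1 : |nat (D.g i j) (D.Ψ i j ω) x (l + 1)| ≤ C * (6 * 2 ^ z) ^ E := by
        have h2 := k1 (l + 1) (by have := l.2; omega)
        rwa [nat_fz' _ _ hx0 (by omega)] at h2
      unfold scv up
      rw [abs_div, abs_of_pos (by positivity : (0 : ℝ) < 4 * 2 ^ z), div_le_iff₀ (by positivity)]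
      have h3 := abs_add_le (nat (D.g i j) (D.Ψ i j ω) x (l + 1)) (2 * 2 ^ z)
      rw [abs_of_pos (by positivity : (0 : ℝ) < 2 * 2 ^ z)] at h3
      have h4 : C * (6 * 2 ^ z) ^ E + 2 * 2 ^ z ≤ ρ * (4 * 2 ^ z) := by
        rw [hρ]
        nlinarith
      linarith
    have e5 := Pool.Agent.H36.KBX.eval_bound F hF ((2 : ℝ) ^ b) ρ hρ1 hcf _ e4
    rw [← hN] at e5
    rw [e2]
    refine (abs_add_le _ _).trans ((add_le_add e3 e5).trans ?_)
    have f1 : ρ ^ ((n - 1) * K') ≤ ρ ^ P := pow_le_pow_right₀ hρ1 (by omega)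
    have f2 : ρ ≤ ρ ^ P := by
      calc ρ = ρ ^ 1 := (pow_one _).symm
        _ ≤ _ := pow_le_pow_right₀ hρ1 (by omega)
    have f3 : C * (6 * 2 ^ z) ^ E ≤ ρ := by
      rw [hρ]
      linarith
    have f4 : 0 ≤ ρ ^ P := by positivity
    have f5 : N * ((2 : ℝ) ^ b * ρ ^ ((n - 1) * K')) ≤ N * ((2 : ℝ) ^ b * ρ ^ P) := by gcongr
    have f6 : ρ ^ P ≤ (2 : ℝ) ^ b * ρ ^ P := by nlinarith
    calc C * (6 * 2 ^ z) ^ E + N * ((2 : ℝ) ^ b * ρ ^ ((n - 1) * K'))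
        ≤ (2 : ℝ) ^ b * ρ ^ P + N * ((2 : ℝ) ^ b * ρ ^ P) := by linarith
      _ = (1 + N) * (2 : ℝ) ^ b * ρ ^ P := by ring
  refine (hcb _ _ (kTr_deg hO hF ω) hval α).trans ?_
  have g1 : ρ ^ P = (2 * C * 6 ^ E) ^ P * (2 : ℝ) ^ ((E * P : ℝ) * z) := by
    have e : (2 : ℝ) ^ ((E * P : ℝ) * z) = ((2 : ℝ) ^ z) ^ (E * P) := by
      rw [← pow_mul, ← Real.rpow_natCast]
      congr 1
      push_cast
      ring
    rw [e, hρ, mul_pow (6 : ℝ), pow_mul, ← mul_pow]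
    ring
  have g2 : A ≤ (2 : ℝ) ^ (Real.logb 2 A * z) := by
    calc A = (2 : ℝ) ^ Real.logb 2 A := (Real.rpow_logb (by norm_num) (by norm_num)
          (by linarith)).symm
      _ ≤ _ := Real.rpow_le_rpow_of_exponent_le (by norm_num) (by
        have := Real.logb_nonneg one_lt_two hA1
        nlinarith)
  have g3 : (2 : ℝ) ^ (b + (Real.logb 2 A + E * P) * z) =
      (2 : ℝ) ^ b * ((2 : ℝ) ^ (Real.logb 2 A * z) * (2 : ℝ) ^ ((E * P : ℝ) * z)) := by
    rw [← Real.rpow_add (by norm_num), ← Real.rpow_add (by norm_num)]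
    congr 1
    ring
  rw [g3, g1]
  have g4 : 0 ≤ (2 : ℝ) ^ ((E * P : ℝ) * z) := by positivity
  have g5 : Cc * ((1 + N) * (2 : ℝ) ^ b * ((2 * C * 6 ^ E) ^ P * (2 : ℝ) ^ ((E * P : ℝ) * z))) ≤
      (2 : ℝ) ^ b * (A * (2 : ℝ) ^ ((E * P : ℝ) * z)) := by
    rw [hA]
    have h1 : 0 ≤ (1 + N) * (2 : ℝ) ^ b * ((2 * C * 6 ^ E) ^ P * (2 : ℝ) ^ ((E * P : ℝ) * z)) := by
      positivity
    calc _ ≤ (Cc + 1) * ((1 + N) * (2 : ℝ) ^ b *
          ((2 * C * 6 ^ E) ^ P * (2 : ℝ) ^ ((E * P : ℝ) * z))) :=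
          mul_le_mul_of_nonneg_right (by linarith) h1
      _ = _ := by ring
  refine g5.trans ?_
  gcongr

end Pool.VAS
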